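import Mathlib

/-!
# Leonard pairs: the Jordan form of `q⁻¹ A A* - q A* A` (MP_1e0d46_al)
-/

set_option autoImplicit false

open Module Polynomial

namespace Pool.Agent.Results.MP_1e0d46_al.GeometricLeonard

variable {K : Type*} [Field K] {V : Type*} [AddCommGroup V] [Module K V]

/-- `A` is diagonalizable with the distinct eigenvalues `θ 0, …, θ d`, and `B` maps the eigenspace of
`A` for `θ i` into the sum of the eigenspaces for `θ (i - 1)`, `θ i` and `θ (i + 1)`. -/
structure Standard (d : ℕ) (A B : End K V) (θ : Fin (d + 1) → K) : Prop where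
  inj : Function.Injective θ
  ne_bot : ∀ i, A.eigenspace (θ i) ≠ ⊥
  span : (⨆ i, A.eigenspace (θ i)) = ⊤
  tri : ∀ i, ∀ v ∈ A.eigenspace (θ i),
    B v ∈ ⨆ j : {j : Fin (d + 1) // (j : ℕ) ≤ i + 1 ∧ (i : ℕ) ≤ j + 1}, A.eigenspace (θ j)

/-- `A, B` is a tridiagonal pair on `V`: `θ 0, …, θ d` and `θ' 0, …, θ' δ` are the eigenvalues of `A`
and of `B` in orders as in the definition of a tridiagonal pair, and no subspace except `0` and `V` is
invariant under `A` and `B`. -/
structure IsTridiagonalPair (d δ : ℕ) (A B : End K V) (θ : Fin (d + 1) → K)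
    (θ' : Fin (δ + 1) → K) : Prop where
  left : Standard d A B θ
  right : Standard δ B A θ'
  irr : ∀ W : Submodule K V, (∀ w ∈ W, A w ∈ W) → (∀ w ∈ W, B w ∈ W) → W = ⊥ ∨ W = ⊤

/-- the coordinates of the image of a vector -/
theorem repr_map {n : ℕ} (b : Basis (Fin (n + 1)) K V) (M : End K V) (x : V) (i : Fin (n + 1)) :
    b.repr (M x) i = ∑ j, b.repr x j * b.repr (M (b j)) i := by
  have h : M x = ∑ j, b.repr x j • M (b j) := by
    conv_lhs => rw [← b.sum_repr x]
    rw [map_sum]
    simp only [map_smul]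
  rw [h, map_sum, Finsupp.finsetSum_apply]
  simp only [map_smul, Finsupp.smul_apply, smul_eq_mul]

/-- a linear map with zeros above the superdiagonal and at most `s` zeros on it has eigenspaces of
dimension at most `s + 1` -/
theorem core {n : ℕ} (b : Basis (Fin (n + 1)) K V) (M : End K V) (Z : Finset (Fin n))
    (hz : ∀ i j : Fin (n + 1), (i : ℕ) + 1 < j → b.repr (M (b j)) i = 0)
    (hne : ∀ i : Fin n, i ∉ Z → b.repr (M (b i.succ)) i.castSucc ≠ 0) (μ : K) :
    finrank K (M.eigenspace μ) ≤ Z.card + 1 := by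
  have hker : ∀ x ∈ M.eigenspace μ, b.repr x 0 = 0 → (∀ i ∈ Z, b.repr x i.succ = 0) → x = 0 := by
    intro x hx h0 hZ
    have hx' : M x = μ • x := Module.End.mem_eigenspace_iff.1 hx
    have key : ∀ k : ℕ, ∀ j : Fin (n + 1), (j : ℕ) ≤ k → b.repr x j = 0 := by
      intro k
      induction k with
      | zero =>
        intro j hj
        have : j = 0 := by
          apply Fin.ext
          simpa using hj
        rw [this]
        exact h0
      | succ k ih =>
        intro j hj
        rcases Nat.lt_or_ge (j : ℕ) (k + 1) with h | h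
        · exact ih j (by omega)
        · have hj' : (j : ℕ) = k + 1 := by omega
          have hk : k < n := by
            have := j.2
            omega
          obtain ⟨i, hi⟩ : ∃ i : Fin n, (i : ℕ) = k := ⟨⟨k, hk⟩, rfl⟩
          have hji : j = i.succ := by
            apply Fin.ext
            simp [hi, hj']
          rw [hji]
          by_cases hiZ : i ∈ Z
          · exact hZ i hiZ
          have h1 := repr_map b M x i.castSucc
          rw [hx', map_smul, Finsupp.smul_apply, ih i.castSucc (by simp [hi]), smul_zero] at h1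
          rw [Finset.sum_eq_single i.succ] at h1
          · exact (mul_eq_zero.1 h1.symm).resolve_right (hne i hiZ)
          · intro m _ hm
            rcases Nat.lt_or_ge (m : ℕ) (k + 1) with h2 | h2
            · rw [ih m (by omega), zero_mul]
            · have h3 : (m : ℕ) ≠ k + 1 := fun h4 => hm (by
                apply Fin.ext
                simp [hi, h4])
              rw [hz i.castSucc m (by rw [Fin.val_castSucc]; omega), mul_zero]
          · intro h2
            exact absurd (Finset.mem_univ _) h2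
    apply b.repr.injective
    ext j
    simp [key j j le_rfl]
  let g : Option Z → (V →ₗ[K] K) := fun o => match o with
    | none => b.coord 0
    | some i => b.coord (i : Fin n).succ
  let f : M.eigenspace μ →ₗ[K] (Option Z → K) :=
    (LinearMap.pi g).comp (M.eigenspace μ).subtype
  have hf : Function.Injective f := by
    rw [← LinearMap.ker_eq_bot, LinearMap.ker_eq_bot']
    intro x hx
    refine Subtype.ext (hker x x.2 ?_ ?_)
    · exact congrFun hx none
    · intro i hi
      exact congrFun hx (some ⟨i, hi⟩)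
  calc finrank K (M.eigenspace μ) ≤ finrank K (Option Z → K) :=
        LinearMap.finrank_le_finrank_of_injective hf
    _ = Z.card + 1 := by rw [finrank_fintype_fun_eq_card, Fintype.card_option, Fintype.card_coe]

/-- the same with the transposed conditions -/
theorem core' {n : ℕ} (b : Basis (Fin (n + 1)) K V) (M : End K V) (Z : Finset (Fin n))
    (hz : ∀ i j : Fin (n + 1), (j : ℕ) + 1 < i → b.repr (M (b j)) i = 0)
    (hne : ∀ i : Fin n, i ∉ Z → b.repr (M (b i.castSucc)) i.succ ≠ 0) (μ : K) :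
    finrank K (M.eigenspace μ) ≤ Z.card + 1 := by
  classical
  rw [← Finset.card_image_of_injective Z (Fin.rev_injective (n := n))]
  refine core (b.reindex Fin.revPerm) M (Z.image Fin.rev) ?_ ?_ μ
  · intro i j hij
    rw [Basis.repr_reindex_apply, Basis.reindex_apply]
    apply hz
    simp only [Fin.revPerm_symm, Fin.revPerm_apply, Fin.val_rev]
    have := i.2
    have := j.2
    omega
  · intro i hi
    rw [Basis.repr_reindex_apply, Basis.reindex_apply]
    have h1 := hne i.rev (fun h2 => hi (Finset.mem_image.2 ⟨i.rev, h2, Fin.rev_rev i⟩))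
    have e1 : Fin.revPerm.symm i.succ = i.rev.castSucc := by
      apply Fin.ext
      simp only [Fin.revPerm_symm, Fin.revPerm_apply, Fin.val_rev, Fin.val_castSucc, Fin.val_succ]
      omega
    have e2 : Fin.revPerm.symm i.castSucc = i.rev.succ := by
      apply Fin.ext
      simp only [Fin.revPerm_symm, Fin.revPerm_apply, Fin.val_rev, Fin.val_castSucc, Fin.val_succ]
      omega
    rw [e1, e2]
    exact h1

/-- a basis of eigenvectors -/
theorem exists_basis {d : ℕ} {A B : End K V} {θ : Fin (d + 1) → K} (h : Standard d A B θ)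
    (h1 : ∀ i, finrank K (A.eigenspace (θ i)) = 1) :
    ∃ b : Basis (Fin (d + 1)) K V, (∀ i, b i ∈ A.eigenspace (θ i)) ∧
      ∀ i, ∀ v ∈ A.eigenspace (θ i), ∃ c : K, c • b i = v := by
  have hex : ∀ i, ∃ v ∈ A.eigenspace (θ i), v ≠ 0 := fun i =>
    Submodule.exists_mem_ne_zero_of_ne_bot (h.ne_bot i)
  choose v hv hv0 using hex
  have hone : ∀ i, ∀ w ∈ A.eigenspace (θ i), ∃ c : K, c • v i = w := by
    intro i w hw
    have h2 := (finrank_eq_one_iff_of_nonzero' (⟨v i, hv i⟩ : A.eigenspace (θ i)) (by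
      intro h3
      exact hv0 i (congrArg Subtype.val h3))).1 (h1 i) ⟨w, hw⟩
    obtain ⟨c, hc⟩ := h2
    exact ⟨c, congrArg Subtype.val hc⟩
  have hli : LinearIndependent K v :=
    Module.End.eigenvectors_linearIndependent' A θ h.inj v (fun i => ⟨hv i, hv0 i⟩)
  have hsp : ⊤ ≤ Submodule.span K (Set.range v) := by
    rw [← h.span]
    refine iSup_le fun i w hw => ?_
    obtain ⟨c, rfl⟩ := hone i w hw
    exact Submodule.smul_mem _ _ (Submodule.subset_span ⟨i, rfl⟩)
  refine ⟨Basis.mk hli hsp, fun i => ?_, fun i w hw => ?_⟩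
  · rw [Basis.mk_apply]
    exact hv i
  · rw [Basis.mk_apply]
    exact hone i w hw

theorem coord_iSup {d : ℕ} {A : End K V} {θ : Fin (d + 1) → K} (b : Basis (Fin (d + 1)) K V)
    (hb : ∀ i, ∀ v ∈ A.eigenspace (θ i), ∃ c : K, c • b i = v) (P : Fin (d + 1) → Prop)
    {x : V} (hx : x ∈ ⨆ j : {j : Fin (d + 1) // P j}, A.eigenspace (θ j)) {i : Fin (d + 1)}
    (hi : ¬ P i) : b.repr x i = 0 := by
  have h1 : (⨆ j : {j : Fin (d + 1) // P j}, A.eigenspace (θ j)) ≤ LinearMap.ker (b.coord i) := by
    refine iSup_le fun j w hw => ?_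
    obtain ⟨c, rfl⟩ := hb j w hw
    rw [LinearMap.mem_ker, Basis.coord_apply, map_smul, Finsupp.smul_apply, Basis.repr_self,
      Finsupp.single_apply, if_neg (fun h : (j : Fin (d + 1)) = i => hi (h ▸ j.2)), smul_zero]
  exact h1 hx

/-- the matrix of `B` in a basis of eigenvectors of `A` is irreducible -/
theorem irr_entry {n : ℕ} {A B : End K V} {θ : Fin (n + 1) → K}
    (h : ∀ W : Submodule K V, (∀ w ∈ W, A w ∈ W) → (∀ w ∈ W, B w ∈ W) → W = ⊥ ∨ W = ⊤)
    (b : Basis (Fin (n + 1)) K V)
    (hA : ∀ x k, b.repr (A x) k = θ k * b.repr x k) (p : Fin (n + 1) → Prop) (h1 : ∃ k, p k)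
    (h2 : ∃ k, ¬ p k) : ∃ k j, p k ∧ ¬ p j ∧ b.repr (B (b j)) k ≠ 0 := by
  classical
  by_contra hcon
  push Not at hcon
  obtain ⟨W, hW⟩ : ∃ W : Submodule K V, ∀ x, x ∈ W ↔ ∀ k, p k → b.repr x k = 0 := by
    refine ⟨⨅ k : {k // p k}, LinearMap.ker (b.coord k), fun x => ?_⟩
    rw [Submodule.mem_iInf]
    constructor
    · intro hx k hk
      exact hx ⟨k, hk⟩
    · intro hx k
      exact hx k k.2
  have h3 := h W (by
    intro w hw
    rw [hW] at hw ⊢
    intro k hk
    rw [hA, hw k hk, mul_zero]) (by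
    intro w hw
    rw [hW] at hw ⊢
    intro k hk
    rw [repr_map b B w k]
    apply Finset.sum_eq_zero
    intro j _
    by_cases hj : p j
    · rw [hw j hj, zero_mul]
    · rw [hcon k j hk hj, mul_zero])
  rcases h3 with h3 | h3
  · obtain ⟨k, hk⟩ := h2
    have h4 : b k ∈ W := by
      rw [hW]
      intro j hj
      rw [Basis.repr_self, Finsupp.single_apply, if_neg (fun e : k = j => hk (e ▸ hj))]
    rw [h3, Submodule.mem_bot] at h4
    exact b.ne_zero k h4
  · obtain ⟨k, hk⟩ := h1
    have h4 : b k ∈ W := by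
      rw [h3]
      exact Submodule.mem_top
    have h5 := (hW _).1 h4 k hk
    rw [Basis.repr_self, Finsupp.single_eq_same] at h5
    exact one_ne_zero h5

/-- the linear map `q⁻¹ A B - q B A` -/
def qComm (q : K) (A B : End K V) : End K V := q⁻¹ • (A * B) - q • (B * A)

/-- the coordinates in a basis of eigenvectors of `A` -/
theorem coords {d : ℕ} {A B : End K V} {θ : Fin (d + 1) → K} (h : Standard d A B θ)
    (h1 : ∀ i, finrank K (A.eigenspace (θ i)) = 1) (q : K) :
    ∃ b : Basis (Fin (d + 1)) K V, (∀ i, b i ∈ A.eigenspace (θ i)) ∧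
      (∀ i, ∀ v ∈ A.eigenspace (θ i), ∃ c : K, c • b i = v) ∧
      (∀ i j : Fin (d + 1), ¬ ((i : ℕ) ≤ j + 1 ∧ (j : ℕ) ≤ i + 1) → b.repr (B (b j)) i = 0) ∧
      (∀ x k, b.repr (A x) k = θ k * b.repr x k) ∧
      ∀ i j, b.repr (qComm q A B (b j)) i = (q⁻¹ * θ i - q * θ j) * b.repr (B (b j)) i := by
  classical
  obtain ⟨b, hb, hb1⟩ := exists_basis h h1
  have hbA : ∀ i, A (b i) = θ i • b i := fun i => Module.End.mem_eigenspace_iff.1 (hb i)
  have hA : ∀ x k, b.repr (A x) k = θ k * b.repr x k := by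
    intro x k
    rw [repr_map b A x k, Finset.sum_eq_single k]
    · rw [hbA, map_smul, Finsupp.smul_apply, Basis.repr_self, Finsupp.single_eq_same, smul_eq_mul,
        mul_one, mul_comm]
    · intro j _ hj
      rw [hbA, map_smul, Finsupp.smul_apply, Basis.repr_self, Finsupp.single_apply, if_neg hj,
        smul_zero, mul_zero]
    · intro h3
      exact absurd (Finset.mem_univ _) h3
  refine ⟨b, hb, hb1, ?_, hA, ?_⟩
  · intro i j hij
    exact coord_iSup b hb1 (fun k : Fin (d + 1) => (k : ℕ) ≤ j + 1 ∧ (j : ℕ) ≤ k + 1)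
      (h.tri j (b j) (hb j)) hij
  · intro i j
    have e : qComm q A B (b j) = q⁻¹ • A (B (b j)) - q • (θ j • B (b j)) := by
      rw [qComm, LinearMap.sub_apply, LinearMap.smul_apply, LinearMap.smul_apply,
        Module.End.mul_apply, Module.End.mul_apply, hbA, map_smul]
    rw [e, map_sub, map_smul, map_smul, map_smul, Finsupp.sub_apply, Finsupp.smul_apply,
      Finsupp.smul_apply, Finsupp.smul_apply, hA, smul_eq_mul, smul_eq_mul, smul_eq_mul]
    ring

theorem fac {q : K} (hq : q ≠ 0) (x y : K) : q⁻¹ * x - q * y = 0 ↔ x = q ^ 2 * y := by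
  constructor
  · intro hxy
    have h3 : q⁻¹ * x = q * y := sub_eq_zero.1 hxy
    calc x = q * (q⁻¹ * x) := by rw [← mul_assoc, mul_inv_cancel₀ hq, one_mul]
      _ = q ^ 2 * y := by rw [h3]; ring
  · rintro rfl
    have h3 : q⁻¹ * (q ^ 2 * y) = (q⁻¹ * q) * (q * y) := by ring
    rw [h3, inv_mul_cancel₀ hq, one_mul, sub_self]

/-- the number of Jordan blocks, from one of the two maps -/
theorem blocks {d : ℕ} {A B : End K V} {θ : Fin (d + 1) → K} (h : Standard d A B θ)
    (h1 : ∀ i, finrank K (A.eigenspace (θ i)) = 1)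
    (hirr : ∀ W : Submodule K V, (∀ w ∈ W, A w ∈ W) → (∀ w ∈ W, B w ∈ W) → W = ⊥ ∨ W = ⊤)
    (q : K) (hq : q ≠ 0) (μ : K) :
    finrank K (End.eigenspace (qComm q A B) μ) ≤
        {i : Fin d | θ i.castSucc = q ^ 2 * θ i.succ}.ncard + 1 ∧
      finrank K (End.eigenspace (qComm q A B) μ) ≤
        {i : Fin d | θ i.succ = q ^ 2 * θ i.castSucc}.ncard + 1 := by
  classical
  obtain ⟨b, hb, hb1, htri, hA, hM⟩ := coords h h1 q
  have hsup : ∀ i : Fin d, b.repr (B (b i.succ)) i.castSucc ≠ 0 := by
    intro i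
    obtain ⟨k, j, hk, hj, hne⟩ := irr_entry hirr b hA (fun k => (k : ℕ) ≤ i)
      ⟨i.castSucc, by simp⟩ ⟨i.succ, by simp⟩
    have h3 : (k : ℕ) ≤ j + 1 ∧ (j : ℕ) ≤ k + 1 := by
      by_contra h4
      exact hne (htri k j h4)
    have e1 : k = i.castSucc := by
      apply Fin.ext
      rw [Fin.val_castSucc]
      omega
    have e2 : j = i.succ := by
      apply Fin.ext
      rw [Fin.val_succ]
      omega
    rw [← e1, ← e2]
    exact hne
  have hsub : ∀ i : Fin d, b.repr (B (b i.castSucc)) i.succ ≠ 0 := by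
    intro i
    obtain ⟨k, j, hk, hj, hne⟩ := irr_entry hirr b hA (fun k => (i : ℕ) + 1 ≤ k)
      ⟨i.succ, by simp⟩ ⟨i.castSucc, by simp⟩
    have h3 : (k : ℕ) ≤ j + 1 ∧ (j : ℕ) ≤ k + 1 := by
      by_contra h4
      exact hne (htri k j h4)
    have e1 : k = i.succ := by
      apply Fin.ext
      rw [Fin.val_succ]
      omega
    have e2 : j = i.castSucc := by
      apply Fin.ext
      rw [Fin.val_castSucc]
      omega
    rw [← e1, ← e2]
    exact hne
  constructor
  · rw [Set.ncard_eq_toFinset_card _ (Set.toFinite _)]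
    refine core b _ _ ?_ ?_ μ
    · intro i j hij
      rw [hM, htri i j (by omega), mul_zero]
    · intro i hi
      rw [hM]
      refine mul_ne_zero (fun h4 => hi ?_) (hsup i)
      rw [Set.Finite.mem_toFinset]
      exact (fac hq _ _).1 h4
  · rw [Set.ncard_eq_toFinset_card _ (Set.toFinite _)]
    refine core' b _ _ ?_ ?_ μ
    · intro i j hij
      rw [hM, htri i j (by omega), mul_zero]
    · intro i hi
      rw [hM]
      refine mul_ne_zero (fun h4 => hi ?_) (hsub i)
      rw [Set.Finite.mem_toFinset]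
      exact (fac hq _ _).1 h4

/-- exchange of the two maps -/
theorem eigenspace_swap (q μ : K) (A B : End K V) :
    End.eigenspace (qComm q A B) μ = End.eigenspace (qComm q⁻¹ B A) (-μ) := by
  ext x
  rw [Module.End.mem_eigenspace_iff, Module.End.mem_eigenspace_iff]
  have e : qComm q⁻¹ B A x = -(qComm q A B x) := by
    simp only [qComm, inv_inv, LinearMap.sub_apply, neg_sub]
  rw [e, neg_smul, neg_inj]

/-- a geometric sequence of eigenvalues with ratio `q⁻²` is not one with ratio `q²` -/
theorem geom_empty {d : ℕ} {θ : Fin (d + 1) → K} (hinj : Function.Injective θ) {q : K}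
    (hq4 : q ^ 4 ≠ 1) : ((∀ i : Fin d, θ i.castSucc = q ^ 2 * θ i.succ) →
      {i : Fin d | θ i.succ = q ^ 2 * θ i.castSucc} = ∅) ∧
    ((∀ i : Fin d, θ i.succ = q ^ 2 * θ i.castSucc) →
      {i : Fin d | θ i.castSucc = q ^ 2 * θ i.succ} = ∅) := by
  have hne : ∀ i : Fin d, θ i.castSucc ≠ θ i.succ := by
    intro i h3
    have h4 := congrArg Fin.val (hinj h3)
    rw [Fin.val_castSucc, Fin.val_succ] at h4
    omega
  have hzero : ∀ x : K, x = q ^ 2 * (q ^ 2 * x) → x = 0 := by
    intro x hx
    by_contra hx0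
    apply hq4
    have h3 : (q ^ 4 - 1) * x = 0 := by
      have : q ^ 2 * (q ^ 2 * x) = q ^ 4 * x := by ring
      rw [this] at hx
      rw [sub_mul, one_mul, ← hx, sub_self]
    exact sub_eq_zero.1 ((mul_eq_zero.1 h3).resolve_right hx0)
  constructor
  · intro hg
    rw [Set.eq_empty_iff_forall_notMem]
    intro i h3
    have h3' : θ i.succ = q ^ 2 * θ i.castSucc := h3
    have h4 : θ i.succ = q ^ 2 * (q ^ 2 * θ i.succ) := by rw [← hg i]; exact h3'
    have h5 := hzero _ h4
    apply hne i
    rw [hg i, h5, mul_zero]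
  · intro hg
    rw [Set.eq_empty_iff_forall_notMem]
    intro i h3
    have h3' : θ i.castSucc = q ^ 2 * θ i.succ := h3
    have h4 : θ i.castSucc = q ^ 2 * (q ^ 2 * θ i.castSucc) := by rw [← hg i]; exact h3'
    have h5 := hzero _ h4
    apply hne i
    rw [hg i, h5, mul_zero]

/-- `θ` is geometric with the ratio `q ^ 2` or `q ^ (-2)` -/
def IsGeometric {d : ℕ} (q : K) (θ : Fin (d + 1) → K) : Prop :=
  (∀ i : Fin d, θ i.succ = q ^ 2 * θ i.castSucc) ∨ (∀ i : Fin d, θ i.castSucc = q ^ 2 * θ i.succ)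

/-- `a i` is the `i`-th diagonal coefficient of `B` with respect to the eigenspaces of `A`: for `v` in
the eigenspace of `A` for `θ i`, the vector `B v - a i v` lies in the sum of the other eigenspaces. -/
def IsDiagonal {d : ℕ} (A B : End K V) (θ a : Fin (d + 1) → K) : Prop :=
  ∀ i, ∀ v ∈ A.eigenspace (θ i),
    B v - a i • v ∈ ⨆ j : {j : Fin (d + 1) // j ≠ i}, A.eigenspace (θ j)

/-- the characteristic polynomial of a triangular linear map -/
theorem tri_charpoly [FiniteDimensional K V] {n : ℕ} (b : Basis (Fin (n + 1)) K V) (T : End K V)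
    (h : (∀ i j : Fin (n + 1), (j : ℕ) < i → b.repr (T (b j)) i = 0) ∨
      (∀ i j : Fin (n + 1), (i : ℕ) < j → b.repr (T (b j)) i = 0)) :
    LinearMap.charpoly T = ∏ i, (X - C (b.repr (T (b i)) i)) := by
  rcases h with h | h
  · rw [← LinearMap.charpoly_toMatrix T b, Matrix.charpoly_of_isUpperTriangular]
    · refine Finset.prod_congr rfl fun i _ => ?_
      rw [LinearMap.toMatrix_apply]
    · intro i j hij
      rw [LinearMap.toMatrix_apply]
      exact h i j hij
  · rw [← LinearMap.charpoly_toMatrix T b, ← Matrix.charpoly_transpose,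
      Matrix.charpoly_of_isUpperTriangular]
    · refine Finset.prod_congr rfl fun i _ => ?_
      rw [Matrix.transpose_apply, LinearMap.toMatrix_apply]
    · intro i j hij
      rw [Matrix.transpose_apply, LinearMap.toMatrix_apply]
      exact h j i hij

/-- the characteristic polynomial of `q⁻¹ A B - q B A` and of its negative, if the eigenvalues of `A`
are geometric -/
theorem charp [FiniteDimensional K V] {d : ℕ} {A B : End K V} {θ : Fin (d + 1) → K}
    (h : Standard d A B θ) (h1 : ∀ i, finrank K (A.eigenspace (θ i)) = 1) (q : K) (hq : q ≠ 0)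
    (hg : IsGeometric q θ) : ∃ a : Fin (d + 1) → K, IsDiagonal A B θ a ∧
      LinearMap.charpoly (qComm q A B) = ∏ i, (X - C ((q⁻¹ - q) * θ i * a i)) ∧
      LinearMap.charpoly (-qComm q A B) = ∏ i, (X - C (-((q⁻¹ - q) * θ i * a i))) := by
  classical
  obtain ⟨b, hb, hb1, htri, hA, hM⟩ := coords h h1 q
  have hnext : ∀ i j : Fin (d + 1), (j : ℕ) = i + 1 → ∃ k : Fin d, i = k.castSucc ∧ j = k.succ := by
    intro i j hij
    have := j.2
    refine ⟨⟨i, by omega⟩, ?_, ?_⟩
    · apply Fin.ext
      simp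
    · apply Fin.ext
      simp [hij]
  have htr : (∀ i j : Fin (d + 1), (j : ℕ) < i → b.repr (qComm q A B (b j)) i = 0) ∨
      (∀ i j : Fin (d + 1), (i : ℕ) < j → b.repr (qComm q A B (b j)) i = 0) := by
    rcases hg with hg | hg
    · left
      intro i j hij
      rw [hM]
      by_cases h4 : (i : ℕ) = j + 1
      · obtain ⟨k, rfl, rfl⟩ := hnext j i h4
        rw [(fac hq _ _).2 (hg k), zero_mul]
      · rw [htri i j (by omega), mul_zero]
    · right
      intro i j hij
      rw [hM]
      by_cases h4 : (j : ℕ) = i + 1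
      · obtain ⟨k, rfl, rfl⟩ := hnext i j h4
        rw [(fac hq _ _).2 (hg k), zero_mul]
      · rw [htri i j (by omega), mul_zero]
  refine ⟨fun i => b.repr (B (b i)) i, ?_, ?_, ?_⟩
  · intro i v hv
    obtain ⟨c, rfl⟩ := hb1 i v hv
    have e : B (c • b i) - (b.repr (B (b i)) i) • (c • b i) =
        c • ∑ j ∈ Finset.univ.erase i, b.repr (B (b i)) j • b j := by
      have h3 : B (b i) = ∑ j, b.repr (B (b i)) j • b j := (b.sum_repr _).symm
      have h4 : B (b i) = b.repr (B (b i)) i • b i +
          ∑ j ∈ Finset.univ.erase i, b.repr (B (b i)) j • b j := by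
        rw [Finset.add_sum_erase Finset.univ (fun j => b.repr (B (b i)) j • b j)
          (Finset.mem_univ i)]
        exact h3
      rw [map_smul, smul_comm _ c (b i), ← smul_sub]
      congr 1
      rw [sub_eq_iff_eq_add', ← h4]
    rw [e]
    apply Submodule.smul_mem
    apply Submodule.sum_mem
    intro j hj
    apply Submodule.smul_mem
    exact Submodule.mem_iSup_of_mem (⟨j, (Finset.mem_erase.1 hj).1⟩ : {j : Fin (d + 1) // j ≠ i})
      (hb j)
  · rw [tri_charpoly b _ htr]
    refine Finset.prod_congr rfl fun i _ => ?_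
    rw [hM]
    congr 2
    ring
  · rw [tri_charpoly b]
    · refine Finset.prod_congr rfl fun i _ => ?_
      rw [LinearMap.neg_apply, map_neg, Finsupp.neg_apply, hM]
      congr 2
      ring
    · rcases htr with h3 | h3
      · left
        intro i j hij
        rw [LinearMap.neg_apply, map_neg, Finsupp.neg_apply, h3 i j hij, neg_zero]
      · right
        intro i j hij
        rw [LinearMap.neg_apply, map_neg, Finsupp.neg_apply, h3 i j hij, neg_zero]

/-- Let `A, B` be a Leonard pair on `V`: a tridiagonal pair such that the eigenspaces of `A` and of `B`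
have dimension one, with the eigenvalues `θ 0, …, θ d` of `A` and `θ' 0, …, θ' δ` of `B` in standard
order, let `q ≠ 0`, `q ^ 4 ≠ 1` and `M = q⁻¹ A B - q B A`, and suppose that `θ` or `θ'` is geometric with
the ratio `q ^ 2` or `q ^ (-2)`. Then the eigenspaces of `M` have dimension at most one, and the
characteristic polynomial of `M` is the product of the factors `X - (q⁻¹ - q) θ i a i`, where `a i` are
the diagonal coefficients of `B` (respectively of the factors `X - (q⁻¹ - q) θ' i a' i`, where `a' i` are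
the diagonal coefficients of `A`). So the Jordan form of `M` has for each eigenvalue one block, and its
size is the multiplicity of the eigenvalue among these numbers. -/
theorem result [FiniteDimensional K V] {d δ : ℕ} {A B : End K V} {θ : Fin (d + 1) → K}
    {θ' : Fin (δ + 1) → K} (h : IsTridiagonalPair d δ A B θ θ')
    (h1 : ∀ i, finrank K (A.eigenspace (θ i)) = 1)
    (h2 : ∀ i, finrank K (B.eigenspace (θ' i)) = 1) (q : K) (hq : q ≠ 0) (hq4 : q ^ 4 ≠ 1) :
    (IsGeometric q θ ∨ IsGeometric q θ' →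
      ∀ μ : K, finrank K (End.eigenspace (qComm q A B) μ) ≤ 1) ∧
    (IsGeometric q θ → ∃ a : Fin (d + 1) → K, IsDiagonal A B θ a ∧
      LinearMap.charpoly (qComm q A B) = ∏ i, (X - C ((q⁻¹ - q) * θ i * a i))) ∧
    (IsGeometric q θ' → ∃ a' : Fin (δ + 1) → K, IsDiagonal B A θ' a' ∧
      LinearMap.charpoly (qComm q A B) = ∏ i, (X - C ((q⁻¹ - q) * θ' i * a' i))) := by
  classical
  have hq4' : q⁻¹ ^ 4 ≠ 1 := by
    rw [inv_pow]
    intro h4
    exact hq4 (inv_eq_one.1 h4)
  have hinv : IsGeometric q θ' → IsGeometric q⁻¹ θ' := by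
    have e : ∀ x y : K, x = q ^ 2 * y → y = q⁻¹ ^ 2 * x := by
      rintro x y rfl
      rw [← mul_assoc, ← mul_pow, inv_mul_cancel₀ hq, one_pow, one_mul]
    rintro (hg | hg)
    · exact Or.inr fun i => e _ _ (hg i)
    · exact Or.inl fun i => e _ _ (hg i)
  have one : ∀ (p : K) (_ : p ≠ 0) (_ : p ^ 4 ≠ 1) {n : ℕ} {S T : End K V} {η : Fin (n + 1) → K}
      (_ : Standard n S T η) (_ : ∀ i, finrank K (S.eigenspace (η i)) = 1)
      (_ : ∀ W : Submodule K V, (∀ w ∈ W, S w ∈ W) → (∀ w ∈ W, T w ∈ W) → W = ⊥ ∨ W = ⊤)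
      (_ : IsGeometric p η) (μ : K), finrank K (End.eigenspace (qComm p S T) μ) ≤ 1 := by
    intro p hp hp4 n S T η hS hS1 hirr hg μ
    have main := blocks hS hS1 hirr p hp μ
    rcases hg with hg | hg
    · have h6 := main.1
      rwa [(geom_empty hS.inj hp4).2 hg, Set.ncard_empty] at h6
    · have h6 := main.2
      rwa [(geom_empty hS.inj hp4).1 hg, Set.ncard_empty] at h6
  refine ⟨?_, ?_, ?_⟩
  · rintro (hg | hg) μ
    · exact one q hq hq4 h.left h1 h.irr hg μ
    · rw [eigenspace_swap]
      exact one q⁻¹ (inv_ne_zero hq) hq4' h.right h2 (fun W hW1 hW2 => h.irr W hW2 hW1) (hinv hg) _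
  · intro hg
    obtain ⟨a, ha, hc, -⟩ := charp h.left h1 q hq hg
    exact ⟨a, ha, hc⟩
  · intro hg
    obtain ⟨a, ha, -, hc⟩ := charp h.right h2 q⁻¹ (inv_ne_zero hq) (hinv hg)
    refine ⟨a, ha, ?_⟩
    have e : -qComm q⁻¹ B A = qComm q A B := by
      simp only [qComm, inv_inv, neg_sub]
    rw [e] at hc
    rw [hc]
    refine Finset.prod_congr rfl fun i _ => ?_
    congr 2
    rw [inv_inv]
    ring

end Pool.Agent.Results.MP_1e0d46_al.GeometricLeonard
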