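import Pool.Agent.Lib.MP_1e0d46_al.CoreE
import Pool.Agent.Lib.MP_1e0d46_al.Exc
import Pool.Agent.Lib.MP_1e0d46_al.Bridge

/-!
The Jordan blocks of the q-commutator `M = q⁻¹ A B - q B A` of a tridiagonal pair `A, B`
(`B` is `A*` of the question): for every tridiagonal pair with the relations of the question and
`q ^ 4 ≠ 1` each eigenvalue of `M` has at most `2 rho_[d/2]` Jordan blocks, and at most
`rho_[d/2]` if one of the conditions of the first part holds; then the minimal polynomial of `M`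
has degree at least `d + 1`.
-/

namespace Pool.Agent.Results.MP_1e0d46_al.JordanBlocks

open Module Pool.Agent.Lib.MP_1e0d46_al

theorem result {K V : Type*} [Field K] [AddCommGroup V] [Module K V] [FiniteDimensional K V]
    {A B : End K V} {d : ℕ} {th ths : ℕ → K} (h : TDPair A B d th ths) {q : K} (hq : q ≠ 0) :
    (q ^ 4 ≠ 1 → (∃ ga rh : K, Rel A B (q ^ 2 + (q ^ 2)⁻¹) ga rh) → ∀ mu : K,
      finrank K ((qc q A B).eigenspace mu) ≤ 2 * finrank K (A.eigenspace (th (d / 2)))) ∧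
    (q ^ 2 = 1 ∨
      (q ^ 4 ≠ 1 ∧ ∃ rh : K, Rel A B (q ^ 2 + (q ^ 2)⁻¹) 0 rh ∨
        Rel B A (q ^ 2 + (q ^ 2)⁻¹) 0 rh) ∨
      (∀ i < d, th i ≠ q ^ 2 * th (i + 1)) ∨ (∀ i < d, th (i + 1) ≠ q ^ 2 * th i) ∨
      (∀ i < d, ths i ≠ q ^ 2 * ths (i + 1)) ∨ (∀ i < d, ths (i + 1) ≠ q ^ 2 * ths i) →
      (∀ mu : K, finrank K ((qc q A B).eigenspace mu) ≤ finrank K (A.eigenspace (th (d / 2)))) ∧
      d + 1 ≤ (minpoly K (qc q A B)).natDegree) := by
  have conv : ∀ x y : K, x ≠ q ^ 2 * y ↔ q⁻¹ * x ≠ q * y := by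
    intro x y
    rw [not_iff_not]
    constructor
    · intro e
      rw [e]; field_simp
    · intro e
      have : q * (q⁻¹ * x) = q * (q * y) := by rw [e]
      rw [← mul_assoc, mul_inv_cancel₀ hq, one_mul] at this
      rw [this]; ring
  have facts : q ^ 4 ≠ 1 → q * q⁻¹ = 1 ∧ q ^ 2 - q⁻¹ ^ 2 ≠ 0 ∧ q - q⁻¹ ≠ 0 ∧
      q ^ 2 + (q ^ 2)⁻¹ = q ^ 2 + q⁻¹ ^ 2 := by
    intro hq4
    have h1 : q * q⁻¹ = 1 := mul_inv_cancel₀ hq
    refine ⟨h1, ?_, ?_, by rw [inv_pow]⟩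
    · intro e
      apply hq4
      have : q ^ 2 = q⁻¹ ^ 2 := sub_eq_zero.1 e
      calc q ^ 4 = q ^ 2 * q ^ 2 := by ring
        _ = q ^ 2 * q⁻¹ ^ 2 := by rw [← this]
        _ = (q * q⁻¹) ^ 2 := by ring
        _ = 1 := by rw [h1, one_pow]
    · intro e
      apply hq4
      have : q = q⁻¹ := sub_eq_zero.1 e
      have h2 : q * q = 1 := by
        calc q * q = q * q⁻¹ := by rw [← this]
          _ = 1 := h1
      calc q ^ 4 = (q * q) * (q * q) := by ring
        _ = 1 := by rw [h2, one_mul]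
  constructor
  · rintro hq4 ⟨ga, rh, hr⟩ mu
    obtain ⟨f1, f2, f3, f4⟩ := facts hq4
    rw [f4] at hr
    rcases (h.exc f1 f2 f3 hr).1 with ⟨i0, hi0⟩ | h1
    · exact h.blocksE q i0 hi0 mu
    · have := h.blocks'' q (Or.inr (Or.inl h1)) mu
      omega
  · intro hc
    have hc' : q ^ 2 = 1 ∨ (∀ i < d, th i ≠ q ^ 2 * th (i + 1)) ∨
        (∀ i < d, th (i + 1) ≠ q ^ 2 * th i) ∨ (∀ i < d, ths i ≠ q ^ 2 * ths (i + 1)) ∨
        (∀ i < d, ths (i + 1) ≠ q ^ 2 * ths i) := by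
      rcases hc with hc | ⟨hq4, rh, hr | hr⟩ | hc
      · exact Or.inl hc
      · obtain ⟨f1, f2, f3, f4⟩ := facts hq4
        rw [f4] at hr
        rcases (h.exc f1 f2 f3 hr).2 rfl with h1 | h1
        · exact Or.inr (Or.inl fun i hi => (conv _ _).2 (h1 i hi))
        · exact Or.inr (Or.inr (Or.inl fun i hi => (conv _ _).2 (h1 i hi)))
      · obtain ⟨f1, f2, f3, f4⟩ := facts hq4
        rw [f4] at hr
        rcases (h.swap.exc f1 f2 f3 hr).2 rfl with h1 | h1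
        · exact Or.inr (Or.inr (Or.inr (Or.inl fun i hi => (conv _ _).2 (h1 i hi))))
        · exact Or.inr (Or.inr (Or.inr (Or.inr fun i hi => (conv _ _).2 (h1 i hi))))
      · exact Or.inr hc
    refine ⟨fun mu => h.blocks'' q ?_ mu, (Bridge.minpoly_ge h hq hc').2⟩
    rcases hc' with h1 | h1 | h1 | h1 | h1
    · left
      intro i hi e
      have h2 := (conv (th i) (th (i + 1))).1
      rw [h1, one_mul] at h2
      refine h2 (fun e' => ?_) e
      have := h.left.inj i hi.le (i + 1) hi e'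
      omega
    · exact Or.inl fun i hi => (conv _ _).1 (h1 i hi)
    · exact Or.inr (Or.inl fun i hi => (conv _ _).1 (h1 i hi))
    · exact Or.inr (Or.inr (Or.inl fun i hi => (conv _ _).1 (h1 i hi)))
    · exact Or.inr (Or.inr (Or.inr fun i hi => (conv _ _).1 (h1 i hi)))

end Pool.Agent.Results.MP_1e0d46_al.JordanBlocks
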